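import Pool.Agent.Q166.AL.LEFT
import Pool.Agent.W915.WM.Hor
import Pool.Agent.W280.WM.EF

/-! AL-EF: the explicit formula (project AL of helper72, MP_f0209c_nt). -/

set_option autoImplicit false

open Complex MeasureTheory Filter Topology Set
open H345 (Zo aa XX)

namespace Pool.Agent.Q166.AL

open Pool.Agent.Q72.AL

theorem gauss_shift4 (T : ℝ) : Integrable (fun y : ℝ => Real.exp (-(1 / 4) * (y - T) ^ 2)) ∧
    ∫ y : ℝ, Real.exp (-(1 / 4) * (y - T) ^ 2) = Real.sqrt (Real.pi / (1 / 4)) := by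
  constructor
  · exact (integrable_exp_neg_mul_sq (b := 1 / 4) (by norm_num)).comp_sub_right T
  · rw [integral_sub_right_eq_self (fun y : ℝ => Real.exp (-(1 / 4) * y ^ 2)) T]
    exact integral_gaussian (1 / 4)

theorem tail_bd (f : ℝ → ℂ) (hf : Integrable f) (K R T U1 U2 : ℝ) (hK : 0 ≤ K) (hR : 0 ≤ R)
    (hU : U1 ≤ U2) (h1 : U1 ≤ T - R) (h2 : T + R ≤ U2)
    (hb : ∀ y, ‖f y‖ ≤ K * Real.exp (-(1 / 2) * (y - T) ^ 2)) :
    ‖(∫ y, f y) - ∫ y in U1..U2, f y‖ ≤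
      K * Real.exp (-(1 / 4) * R ^ 2) * Real.sqrt (Real.pi / (1 / 4)) := by
  obtain ⟨hg1, hg2⟩ := gauss_shift4 T
  have e : (∫ y, f y) - ∫ y in U1..U2, f y = ∫ y in (Ioc U1 U2)ᶜ, f y := by
    rw [intervalIntegral.integral_of_le hU, ← integral_add_compl measurableSet_Ioc hf]
    ring
  rw [e]
  have hg : Integrable (fun y : ℝ => K * Real.exp (-(1 / 4) * R ^ 2) * Real.exp (-(1 / 4) * (y - T) ^ 2)) :=
    hg1.const_mul _
  have h3 : ‖∫ y in (Ioc U1 U2)ᶜ, f y‖ ≤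
      ∫ y in (Ioc U1 U2)ᶜ, K * Real.exp (-(1 / 4) * R ^ 2) * Real.exp (-(1 / 4) * (y - T) ^ 2) := by
    apply norm_integral_le_of_norm_le hg.restrict
    rw [ae_restrict_iff' measurableSet_Ioc.compl]
    refine Eventually.of_forall fun y hy => (hb y).trans ?_
    rw [mul_assoc]
    apply mul_le_mul_of_nonneg_left _ hK
    rw [← Real.exp_add]
    apply Real.exp_le_exp.mpr
    have h4 : R ^ 2 ≤ (y - T) ^ 2 := by
      rw [mem_compl_iff, mem_Ioc, not_and_or, not_lt, not_le] at hy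
      rcases hy with hy | hy
      · nlinarith
      · nlinarith
    linarith
  have h4 : ∫ y in (Ioc U1 U2)ᶜ, K * Real.exp (-(1 / 4) * R ^ 2) * Real.exp (-(1 / 4) * (y - T) ^ 2) ≤
      ∫ y, K * Real.exp (-(1 / 4) * R ^ 2) * Real.exp (-(1 / 4) * (y - T) ^ 2) :=
    setIntegral_le_integral hg (Eventually.of_forall fun y => by positivity)
  have h5 : ∫ y, K * Real.exp (-(1 / 4) * R ^ 2) * Real.exp (-(1 / 4) * (y - T) ^ 2) =
      K * Real.exp (-(1 / 4) * R ^ 2) * Real.sqrt (Real.pi / (1 / 4)) := by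
    rw [integral_const_mul, hg2]
  exact (h3.trans h4).trans (le_of_eq h5)

theorem right_pt : ∃ B : ℝ, 1 ≤ B ∧ ∀ κ v T y : ℝ, 1 ≤ κ → κ ≤ 2 →
    ‖Ph κ v T (⟨3 / 2, y⟩ : ℂ)‖ ≤ B * Real.exp |v| * Real.exp (-(1 / 2) * (y - T) ^ 2) := by
  obtain ⟨B, hB, h⟩ := Pool.Agent.W915.WM.zeta_inv_right
  refine ⟨B * Real.exp 2, ?_, ?_⟩
  · have : 1 ≤ Real.exp 2 := Real.one_le_exp (by norm_num)
    nlinarith
  intro κ v T y h1 h2
  rw [norm_Ph]
  have hz := (h (⟨3 / 2, y⟩ : ℂ) (le_refl _)).2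
  have hexp : Real.exp (κ * ((3 / 2 - 1 / 2) ^ 2 - (y - T) ^ 2) + v * (3 / 2 - 1 / 2)) ≤
      Real.exp 2 * Real.exp |v| * Real.exp (-(1 / 2) * (y - T) ^ 2) := by
    rw [← Real.exp_add, ← Real.exp_add]
    apply Real.exp_le_exp.mpr
    have := le_abs_self v
    nlinarith [mul_nonneg (sub_nonneg.mpr h1) (sq_nonneg (y - T)), sq_nonneg (y - T)]
  calc _ ≤ (Real.exp 2 * Real.exp |v| * Real.exp (-(1 / 2) * (y - T) ^ 2)) * B :=
        mul_le_mul hexp hz (norm_nonneg _) (by positivity)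
    _ = _ := by ring

theorem horiz (κ v T U R L : ℝ) (h1 : 1 ≤ κ) (h2 : κ ≤ 2) (hR : R ^ 2 ≤ (U - T) ^ 2)
    (hz : ∀ σ ∈ Icc (-1 / 2 : ℝ) (3 / 2), ‖(riemannZeta (⟨σ, U⟩ : ℂ))⁻¹‖ ≤ Real.exp L) :
    ‖∫ x in (-1 / 2 : ℝ)..(3 / 2), Ph κ v T (⟨x, U⟩ : ℂ)‖ ≤ 2 * Real.exp (2 - R ^ 2 + |v| + L) := by
  have h3 := intervalIntegral.norm_integral_le_of_norm_le_const (a := (-1 / 2 : ℝ)) (b := 3 / 2)
    (f := fun x => Ph κ v T (⟨x, U⟩ : ℂ)) (C := Real.exp (2 - R ^ 2 + |v| + L)) (by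
      intro x hx
      have hx' : x ∈ Icc (-1 / 2 : ℝ) (3 / 2) := by
        rw [uIoc_of_le (by norm_num)] at hx
        exact ⟨hx.1.le, hx.2⟩
      rw [norm_Ph, Real.exp_add (2 - R ^ 2 + |v|) L]
      apply mul_le_mul _ (hz x hx') (norm_nonneg _) (by positivity)
      apply Real.exp_le_exp.mpr
      have h4 : |x - 1 / 2| ≤ 1 := by
        rw [abs_le]; constructor <;> linarith [hx'.1, hx'.2]
      have h5 : (x - 1 / 2) ^ 2 ≤ 1 := by
        rw [← sq_abs]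
        nlinarith [abs_nonneg (x - 1 / 2)]
      have h6 : v * (x - 1 / 2) ≤ |v| := by
        calc v * (x - 1 / 2) ≤ |v * (x - 1 / 2)| := le_abs_self _
          _ = |v| * |x - 1 / 2| := abs_mul _ _
          _ ≤ |v| * 1 := mul_le_mul_of_nonneg_left h4 (abs_nonneg v)
          _ = |v| := mul_one _
      have h7 : κ * (x - 1 / 2) ^ 2 ≤ 2 := by nlinarith [sq_nonneg (x - 1 / 2)]
      have h8 : R ^ 2 ≤ κ * (U - T) ^ 2 := by nlinarith [sq_nonneg (U - T)]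
      linarith)
  have e : |(3 / 2 : ℝ) - (-1 / 2)| = 2 := by norm_num
  rw [e] at h3
  linarith

theorem big (A D : ℝ) (hD : 0 ≤ D) : ∀ᶠ X : ℝ in atTop,
    A + 4 * Real.log X + D * Real.log X ^ 2 ≤ X ^ 2 / 16 := by
  have h2 := (Real.isLittleO_pow_log_id_atTop (n := 2)).bound (c := (D + 2)⁻¹) (by positivity)
  filter_upwards [h2, eventually_ge_atTop (32 : ℝ), eventually_ge_atTop (A + 2)] with X hX hX1 hX2
  rw [Real.norm_eq_abs, Real.norm_eq_abs, abs_of_nonneg (by positivity), id_eq,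
    abs_of_nonneg (by linarith)] at hX
  have h3 : (D + 2) * Real.log X ^ 2 ≤ X := by
    calc (D + 2) * Real.log X ^ 2 ≤ (D + 2) * ((D + 2)⁻¹ * X) :=
          mul_le_mul_of_nonneg_left hX (by positivity)
      _ = X := by field_simp
  have h4 : 4 * Real.log X ≤ 2 + 2 * Real.log X ^ 2 := by nlinarith [sq_nonneg (Real.log X - 1)]
  nlinarith

theorem not_Zo (U : ℝ) (hU : 0 ≤ U) (h : ∀ σ ∈ Icc (-1 / 2 : ℝ) (3 / 2), ∀ t : ℝ, |t| = U →
    riemannZeta (⟨σ, t⟩ : ℂ) ≠ 0) : U ∉ Zo := by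
  intro h1
  apply h (1 / 2) ⟨by norm_num, by norm_num⟩ U (abs_of_nonneg hU)
  have e : (⟨1 / 2, U⟩ : ℂ) = 1 / 2 + (U : ℂ) * I := by
    apply Complex.ext <;> simp
  rw [e]
  exact h1

theorem fin_Zo (U1 U2 : ℝ) (h1 : 0 ≤ U1) : {t : ℝ | t ∈ Zo ∧ U1 ≤ t ∧ t ≤ U2}.Finite := by
  have hinj : Function.Injective (fun t : ℝ => (1 / 2 + (t : ℂ) * I : ℂ)) := by
    intro t t' h
    have := congrArg Complex.im h
    simpa using this
  refine ((Pool.Agent.W280.WM.fin_NT U2).preimage (f := fun t : ℝ => (1 / 2 + (t : ℂ) * I : ℂ))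
    hinj.injOn).subset ?_
  rintro t ⟨ht, ht1, ht2⟩
  refine ⟨⟨ht, ?_, ?_⟩, ?_⟩
  · simp
  · simp; norm_num
  · show |(1 / 2 + (t : ℂ) * I : ℂ).im| ≤ U2
    have e : (1 / 2 + (t : ℂ) * I : ℂ).im = t := by simp
    rw [e, abs_of_nonneg (by linarith)]
    exact ht2

theorem ef (h1 : J_RIGHT) (h2 : J_LEFT) (h3 : J_RECT) : J_EF := by
  intro hRH
  obtain ⟨CL, hCL, hleft⟩ := h2
  obtain ⟨C, hC, hgood⟩ := Pool.Agent.W915.WM.hor
  obtain ⟨BL, hBL, hlpt⟩ := left_pt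
  obtain ⟨BR, hBR, hrpt⟩ := right_pt
  set G : ℝ := Real.sqrt (Real.pi / (1 / 4)) with hG
  have hGpos : 0 < G := Real.sqrt_pos.mpr (by positivity)
  have hev1 := big 2 (4 * C) (by positivity)
  have hev2 := big (BR * G) 0 le_rfl
  have hev3 := big (BL * G) 0 le_rfl
  obtain ⟨X1, hX1⟩ := Filter.eventually_atTop.mp ((hev1.and hev2).and hev3)
  refine ⟨6 + CL, max 32 X1, by positivity, ?_⟩
  intro X hX hsimple
  have hX32 : 32 ≤ X := le_trans (le_max_left _ _) hX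
  obtain ⟨⟨hb1, hb2⟩, hb3⟩ := hX1 X (le_trans (le_max_right _ _) hX)
  obtain ⟨U1, hU1, hz1⟩ := hgood (X / 3) (by linarith)
  obtain ⟨U2, hU2, hz2⟩ := hgood (4 * X + 1) (by linarith)
  have hU1a : 1 ≤ U1 := by linarith [hU1.1]
  have hU2a : 1 ≤ U2 := by linarith [hU2.1]
  have hU12 : U1 < U2 := by linarith [hU1.2, hU2.1]
  have hfin := fin_Zo U1 U2 (by linarith)
  have hmem : ∀ t : ℝ, t ∈ hfin.toFinset ↔ t ∈ Zo ∧ U1 ≤ t ∧ t ≤ U2 := by
    intro t
    rw [Set.Finite.mem_toFinset]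
    exact Iff.rfl
  have hXpos : 0 < X := by linarith
  have hlogX : 0 ≤ Real.log X := Real.log_nonneg (by linarith)
  have hinvX : 1 / X = Real.exp (-Real.log X) := by
    rw [Real.exp_neg, Real.exp_log hXpos, one_div]
  refine ⟨hfin.toFinset, ⟨?_, ?_, ?_⟩⟩
  · intro t ht
    obtain ⟨ha, hb, hc⟩ := (hmem t).1 ht
    exact ⟨ha, by linarith [hU1.1], by linarith [hU2.2]⟩
  · intro t ht ht1 ht2
    exact (hmem t).2 ⟨ht, by linarith [hU1.2], by linarith [hU2.1]⟩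
  · intro κ v T hk1 hk2 hT1 hT2 hv
    have key := h3 hRH U1 U2 hfin.toFinset hU1a hU12 hmem
      (not_Zo U1 (by linarith) fun σ hσ t ht => (hz1 σ hσ t ht).1)
      (not_Zo U2 (by linarith) fun σ hσ t ht => (hz2 σ hσ t ht).1)
      (fun t ht => by
        obtain ⟨ha, hb, hc⟩ := (hmem t).1 ht
        exact hsimple t ha (by linarith [hU1.1]) (by linarith [hU2.2])) κ v T
    obtain ⟨hRint, hRight⟩ := h1 κ v T (by linarith)
    obtain ⟨hLint, hLeft⟩ := hleft κ v T hk1 hk2 (by linarith)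
    -- bounds
    have hT0 : 0 < T := by linarith
    have hBR0 : 0 < BR := by linarith
    have hR0 : (0 : ℝ) ≤ X / 2 := by linarith
    have ha1 : U1 ≤ T - X / 2 := by linarith [hU1.2]
    have ha2 : T + X / 2 ≤ U2 := by linarith [hU2.1]
    have htR := tail_bd (fun y : ℝ => Ph κ v T (⟨3 / 2, y⟩ : ℂ)) hRint (BR * Real.exp |v|) (X / 2) T U1 U2
      (by positivity) hR0 hU12.le ha1 ha2 (fun y => hrpt κ v T y hk1 hk2)
    have htL := tail_bd (fun y : ℝ => Ph κ v T (⟨-1 / 2, y⟩ : ℂ)) hLint (BL * Real.exp (-v) / T) (X / 2) T U1 U2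
      (by positivity) hR0 hU12.le ha1 ha2 (fun y => hlpt κ v T y hk1 hk2 (by linarith))
    have hh1 := horiz κ v T U1 (X / 2) (C * Real.log (X / 3) ^ 2) hk1 hk2 (by nlinarith)
      (fun σ hσ => (hz1 σ hσ U1 (abs_of_nonneg (by linarith))).2)
    have hh2 := horiz κ v T U2 (X / 2) (C * Real.log (4 * X + 1) ^ 2) hk1 hk2 (by nlinarith)
      (fun σ hσ => (hz2 σ hσ U2 (abs_of_nonneg (by linarith))).2)
    -- numerical estimates
    have hlog : ∀ Y : ℝ, 1 ≤ Y → Y ≤ X ^ 2 → C * Real.log Y ^ 2 ≤ 4 * C * Real.log X ^ 2 := by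
      intro Y hY1 hY2
      have h5 : Real.log Y ≤ 2 * Real.log X := by
        have := Real.log_le_log (by linarith) hY2
        rw [Real.log_pow] at this
        exact_mod_cast this
      have h6 : 0 ≤ Real.log Y := Real.log_nonneg hY1
      have h7 : Real.log Y ^ 2 ≤ (2 * Real.log X) ^ 2 := pow_le_pow_left₀ h6 h5 2
      nlinarith
    have hH : ∀ Y : ℝ, 1 ≤ Y → Y ≤ X ^ 2 →
        2 * Real.exp (2 - (X / 2) ^ 2 + |v| + C * Real.log Y ^ 2) ≤ 2 * (1 / X) := by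
      intro Y hY1 hY2
      have h5 := hlog Y hY1 hY2
      rw [hinvX]
      apply mul_le_mul_of_nonneg_left _ (by norm_num)
      apply Real.exp_le_exp.mpr
      nlinarith
    have hH1 := hh1.trans (hH (X / 3) (by linarith) (by nlinarith))
    have hH2 := hh2.trans (hH (4 * X + 1) (by linarith) (by nlinarith))
    have hcst : ∀ B : ℝ, 0 < B → B * G + 4 * Real.log X + 0 * Real.log X ^ 2 ≤ X ^ 2 / 16 →
        B * Real.exp |v| * Real.exp (-(1 / 4) * (X / 2) ^ 2) * G ≤ 1 / X := by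
      intro B hB hBX
      have h5 : B * G ≤ Real.exp (B * G) := by
        have := Real.add_one_le_exp (B * G)
        linarith
      calc B * Real.exp |v| * Real.exp (-(1 / 4) * (X / 2) ^ 2) * G
          = (B * G) * (Real.exp |v| * Real.exp (-(1 / 4) * (X / 2) ^ 2)) := by ring
        _ ≤ Real.exp (B * G) * (Real.exp |v| * Real.exp (-(1 / 4) * (X / 2) ^ 2)) :=
            mul_le_mul_of_nonneg_right h5 (by positivity)
        _ ≤ 1 / X := by
            rw [← Real.exp_add, ← Real.exp_add, hinvX]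
            apply Real.exp_le_exp.mpr
            nlinarith
    have hTR := htR.trans (hcst BR (by linarith) hb2)
    have hTL : ‖(∫ y : ℝ, Ph κ v T (⟨-1 / 2, y⟩ : ℂ)) - ∫ y in U1..U2, Ph κ v T (⟨-1 / 2, y⟩ : ℂ)‖ ≤ 1 / X := by
      refine htL.trans (le_trans ?_ (hcst BL hBL hb3))
      apply mul_le_mul_of_nonneg_right _ hGpos.le
      apply mul_le_mul_of_nonneg_right _ (Real.exp_nonneg _)
      rw [div_le_iff₀ (by linarith)]
      have h5 : Real.exp (-v) ≤ Real.exp |v| := Real.exp_le_exp.mpr (neg_le_abs v)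
      have h6 : 0 < Real.exp |v| := Real.exp_pos _
      have h7 : BL * Real.exp (-v) ≤ BL * Real.exp |v| := mul_le_mul_of_nonneg_left h5 hBL.le
      have h8 : BL * Real.exp |v| * 1 ≤ BL * Real.exp |v| * T :=
        mul_le_mul_of_nonneg_left (by linarith) (by positivity)
      linarith
    have hLf : CL * Real.exp (-v) / T ≤ CL * Real.exp (-v) / X :=
      div_le_div_of_nonneg_left (by positivity) hXpos hT1
    -- assemble
    rw [hRight]
    generalize (∫ y : ℝ, Ph κ v T (⟨3 / 2, y⟩ : ℂ)) = R at hTR ⊢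
    generalize (∫ y : ℝ, Ph κ v T (⟨-1 / 2, y⟩ : ℂ)) = L at hTL hLeft
    generalize (∫ y in U1..U2, Ph κ v T (⟨3 / 2, y⟩ : ℂ)) = R3 at hTR key
    generalize (∫ y in U1..U2, Ph κ v T (⟨-1 / 2, y⟩ : ℂ)) = L3 at hTL key
    generalize (∫ x in (-1 / 2 : ℝ)..(3 / 2), Ph κ v T (⟨x, U1⟩ : ℂ)) = H1 at hH1 key
    generalize (∫ x in (-1 / 2 : ℝ)..(3 / 2), Ph κ v T (⟨x, U2⟩ : ℂ)) = H2 at hH2 key
    generalize ZZ hfin.toFinset κ v T = Zs at key ⊢
    have hpi : ((2 * Real.pi : ℝ) : ℂ) ≠ 0 := by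
      exact_mod_cast (by positivity : (2 * Real.pi : ℝ) ≠ 0)
    have hZs : Zs = ((2 * Real.pi : ℝ) : ℂ)⁻¹ * (R3 - L3 - I * (H1 - H2)) := by
      rw [eq_inv_mul_iff_mul_eq₀ hpi]
      push_cast
      linear_combination (I) * key + (2 * Real.pi * Zs - R3 + L3) * I_sq
    have hdiff : ((2 * Real.pi : ℝ) : ℂ)⁻¹ * R - Zs =
        ((2 * Real.pi : ℝ) : ℂ)⁻¹ * ((R - R3) + (L - (L - L3)) + I * H1 - I * H2) := by
      rw [hZs]; ring
    rw [hdiff, norm_mul]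
    have hn1 : ‖((2 * Real.pi : ℝ) : ℂ)⁻¹‖ ≤ 1 := by
      rw [norm_inv, Complex.norm_real, Real.norm_eq_abs, abs_of_pos (by positivity)]
      apply inv_le_one_of_one_le₀
      nlinarith [Real.pi_gt_three]
    have hn2 : ‖(R - R3) + (L - (L - L3)) + I * H1 - I * H2‖ ≤
        ‖R - R3‖ + (‖L‖ + ‖L - L3‖) + ‖H1‖ + ‖H2‖ := by
      have e1 : ‖I * H1‖ = ‖H1‖ := by rw [norm_mul, norm_I, one_mul]
      have e2 : ‖I * H2‖ = ‖H2‖ := by rw [norm_mul, norm_I, one_mul]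
      have i1 := norm_sub_le ((R - R3) + (L - (L - L3)) + I * H1) (I * H2)
      have i2 := norm_add_le ((R - R3) + (L - (L - L3))) (I * H1)
      have i3 := norm_add_le (R - R3) (L - (L - L3))
      have i4 := norm_sub_le L (L - L3)
      linarith
    have hfinal : ‖R - R3‖ + (‖L‖ + ‖L - L3‖) + ‖H1‖ + ‖H2‖ ≤ (6 + CL) * (1 + Real.exp (-v)) / X := by
      have e1 : (6 + CL) * (1 + Real.exp (-v)) / X =
          6 * (1 / X) + CL * (1 / X) + 6 * (Real.exp (-v) / X) + CL * Real.exp (-v) / X := by ring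
      rw [e1]
      have p1 : 0 ≤ CL * (1 / X) := by positivity
      have p2 : 0 ≤ 6 * (Real.exp (-v) / X) := by positivity
      linarith
    calc _ ≤ 1 * ((6 + CL) * (1 + Real.exp (-v)) / X) :=
          mul_le_mul hn1 (hn2.trans hfinal) (norm_nonneg _) zero_le_one
      _ = _ := one_mul _

end Pool.Agent.Q166.AL
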