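import Pool.Agent.Q72.AL.Stm
import Pool.Agent.W191.WM.Left

/-! AL-LEFT: the line `Re s = -1/2` (project AL of helper72, MP_f0209c_nt). -/

set_option autoImplicit false

open Complex MeasureTheory Filter Topology Set
open H345 (Zo aa XX)

namespace Pool.Agent.Q166.AL

open Pool.Agent.Q72.AL

theorem norm_Ph (κ v T x y : ℝ) : ‖Ph κ v T (⟨x, y⟩ : ℂ)‖ =
    Real.exp (κ * ((x - 1 / 2) ^ 2 - (y - T) ^ 2) + v * (x - 1 / 2)) * ‖(riemannZeta (⟨x, y⟩ : ℂ))⁻¹‖ := by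
  unfold Ph
  rw [norm_mul, Complex.norm_exp]
  congr 2
  have e1 : ((⟨x, y⟩ : ℂ) - 1 / 2 - (T : ℂ) * I) = ((x - 1 / 2 : ℝ) : ℂ) + ((y - T : ℝ) : ℂ) * I := by
    apply Complex.ext <;> simp
  have e2 : ((κ : ℂ) * ((⟨x, y⟩ : ℂ) - 1 / 2 - (T : ℂ) * I) ^ 2 + (v : ℂ) * ((⟨x, y⟩ : ℂ) - 1 / 2 - (T : ℂ) * I)) =
      ((κ * ((x - 1 / 2) ^ 2 - (y - T) ^ 2) + v * (x - 1 / 2) : ℝ) : ℂ) +
        ((κ * 2 * (x - 1 / 2) * (y - T) + v * (y - T) : ℝ) : ℂ) * I := by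
    rw [e1]
    push_cast
    ring_nf
    rw [Complex.I_sq]
    ring
  rw [e2, Complex.add_re, Complex.ofReal_re, Complex.mul_I_re, Complex.ofReal_im, neg_zero, add_zero]

theorem cont_Ph (κ v T x : ℝ) (hx : x ≠ 1) (hz : ∀ y : ℝ, riemannZeta (⟨x, y⟩ : ℂ) ≠ 0) :
    Continuous (fun y : ℝ => Ph κ v T (⟨x, y⟩ : ℂ)) := by
  have hm : Continuous (fun y : ℝ => (⟨x, y⟩ : ℂ)) := by
    have e : (fun y : ℝ => (⟨x, y⟩ : ℂ)) = fun y : ℝ => (x : ℂ) + (y : ℂ) * I := by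
      funext y
      apply Complex.ext <;> simp
    rw [e]
    fun_prop
  have hzc : Continuous (fun y : ℝ => riemannZeta (⟨x, y⟩ : ℂ)) := by
    rw [continuous_iff_continuousAt]
    intro y
    have hne : (⟨x, y⟩ : ℂ) ≠ 1 := fun h => hx (congrArg Complex.re h)
    exact (differentiableAt_riemannZeta hne).continuousAt.comp (f := fun y : ℝ => (⟨x, y⟩ : ℂ)) hm.continuousAt
  unfold Ph
  refine Continuous.mul ?_ (hzc.inv₀ hz)
  exact Complex.continuous_exp.comp (by fun_prop)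

theorem gauss_shift (T : ℝ) : Integrable (fun y : ℝ => Real.exp (-(1 / 2) * (y - T) ^ 2)) ∧
    ∫ y : ℝ, Real.exp (-(1 / 2) * (y - T) ^ 2) = Real.sqrt (Real.pi / (1 / 2)) := by
  constructor
  · exact (integrable_exp_neg_mul_sq (b := 1 / 2) (by norm_num)).comp_sub_right T
  · rw [integral_sub_right_eq_self (fun y : ℝ => Real.exp (-(1 / 2) * y ^ 2)) T]
    exact integral_gaussian (1 / 2)

/-- pointwise bound on the line `Re s = -1/2` -/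
theorem left_pt : ∃ B : ℝ, 0 < B ∧ ∀ κ v T y : ℝ, 1 ≤ κ → κ ≤ 2 → 1 ≤ T →
    ‖Ph κ v T (⟨-1 / 2, y⟩ : ℂ)‖ ≤ B * Real.exp (-v) / T * Real.exp (-(1 / 2) * (y - T) ^ 2) := by
  obtain ⟨B, hB, hL⟩ := Pool.Agent.W191.WM.left
  refine ⟨2 * B * Real.exp 2, by positivity, ?_⟩
  intro κ v T y h1 h2 hT
  obtain ⟨hz, hb⟩ := hL y
  rw [norm_Ph]
  set s : ℂ := ⟨-1 / 2, y⟩ with hs
  have hns : ‖s‖ ^ 2 = 1 / 4 + y ^ 2 := by
    rw [Complex.sq_norm, Complex.normSq_apply]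
    show (-1 / 2 : ℝ) * (-1 / 2) + y * y = _
    ring
  have hspos : 0 < ‖s‖ := by
    by_contra h
    have : ‖s‖ = 0 := le_antisymm (not_lt.mp h) (norm_nonneg _)
    rw [this] at hns
    nlinarith [sq_nonneg y]
  -- `‖ζ⁻¹‖ ≤ B / ‖s‖`
  have hz1 : ‖(riemannZeta s)⁻¹‖ ≤ B / ‖s‖ := by
    rw [mul_inv, norm_mul, norm_inv s, ← hns] at hb
    have h3 : ‖s‖ * (‖s‖⁻¹ * ‖(riemannZeta s)⁻¹‖) ≤ ‖s‖ * (B / ‖s‖ ^ 2) :=
      mul_le_mul_of_nonneg_left hb hspos.le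
    have e1 : ‖s‖ * (‖s‖⁻¹ * ‖(riemannZeta s)⁻¹‖) = ‖(riemannZeta s)⁻¹‖ := by
      field_simp
    have e2 : ‖s‖ * (B / ‖s‖ ^ 2) = B / ‖s‖ := by
      field_simp
    rwa [e1, e2] at h3
  have hyn : |y| ≤ ‖s‖ := Complex.abs_im_le_norm s
  have hhalf : 1 / 2 ≤ ‖s‖ := by
    have := Complex.abs_re_le_norm s
    have h3 : |s.re| = 1 / 2 := by
      show |(-1 / 2 : ℝ)| = 1 / 2
      norm_num
    rw [h3] at this
    exact this
  have hTy : T ≤ |y| + |y - T| := by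
    have h3 : T = y - (y - T) := by ring
    calc T ≤ |T| := le_abs_self T
      _ = |y - (y - T)| := by rw [← h3]
      _ ≤ |y| + |y - T| := abs_sub _ _
  have hinv : 1 / ‖s‖ ≤ 2 * Real.exp ((1 / 2) * (y - T) ^ 2) / T := by
    rw [div_le_div_iff₀ hspos (by linarith), one_mul]
    have h3 : 1 + (1 / 2) * (y - T) ^ 2 ≤ Real.exp ((1 / 2) * (y - T) ^ 2) := by
      have := Real.add_one_le_exp ((1 / 2) * (y - T) ^ 2)
      linarith
    have h4 : 2 * |y - T| ≤ 1 + (y - T) ^ 2 := by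
      nlinarith [sq_nonneg (|y - T| - 1), sq_abs (y - T)]
    have h5 : |y - T| ≤ 2 * |y - T| * ‖s‖ := by
      nlinarith [abs_nonneg (y - T)]
    have h6 : T ≤ (1 + 2 * |y - T|) * ‖s‖ := by nlinarith
    have h7 : (1 + 2 * |y - T|) * ‖s‖ ≤ (2 * Real.exp ((1 / 2) * (y - T) ^ 2)) * ‖s‖ := by
      apply mul_le_mul_of_nonneg_right _ hspos.le
      linarith
    linarith
  have hexp : Real.exp (κ * ((-1 / 2 - 1 / 2) ^ 2 - (y - T) ^ 2) + v * (-1 / 2 - 1 / 2)) ≤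
      Real.exp 2 * Real.exp (-v) * Real.exp (-(y - T) ^ 2) := by
    rw [← Real.exp_add, ← Real.exp_add]
    apply Real.exp_le_exp.mpr
    nlinarith [mul_nonneg (sub_nonneg.mpr h1) (sq_nonneg (y - T))]
  calc Real.exp (κ * ((-1 / 2 - 1 / 2) ^ 2 - (y - T) ^ 2) + v * (-1 / 2 - 1 / 2)) * ‖(riemannZeta s)⁻¹‖
      ≤ (Real.exp 2 * Real.exp (-v) * Real.exp (-(y - T) ^ 2)) * (B / ‖s‖) :=
        mul_le_mul hexp hz1 (norm_nonneg _) (by positivity)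
    _ = (Real.exp 2 * Real.exp (-v) * Real.exp (-(y - T) ^ 2)) * B * (1 / ‖s‖) := by ring
    _ ≤ (Real.exp 2 * Real.exp (-v) * Real.exp (-(y - T) ^ 2)) * B * (2 * Real.exp ((1 / 2) * (y - T) ^ 2) / T) :=
        mul_le_mul_of_nonneg_left hinv (by positivity)
    _ = 2 * B * Real.exp 2 * Real.exp (-v) / T * (Real.exp (-(y - T) ^ 2) * Real.exp ((1 / 2) * (y - T) ^ 2)) := by
        ring
    _ = 2 * B * Real.exp 2 * Real.exp (-v) / T * Real.exp (-(1 / 2) * (y - T) ^ 2) := by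
        rw [← Real.exp_add]
        congr 2
        ring

theorem left : J_LEFT := by
  obtain ⟨B, hB, hpt⟩ := left_pt
  obtain ⟨_, _, hL⟩ := Pool.Agent.W191.WM.left
  refine ⟨B * Real.sqrt (Real.pi / (1 / 2)), by positivity, ?_⟩
  intro κ v T h1 h2 hT
  obtain ⟨hg1, hg2⟩ := gauss_shift T
  have hint : Integrable (fun y : ℝ => B * Real.exp (-v) / T * Real.exp (-(1 / 2) * (y - T) ^ 2)) :=
    hg1.const_mul _
  have hPh : Integrable (fun y : ℝ => Ph κ v T (⟨-1 / 2, y⟩ : ℂ)) :=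
    hint.mono' (cont_Ph κ v T (-1 / 2) (by norm_num) (fun y => (hL y).1)).aestronglyMeasurable
      (Eventually.of_forall fun y => hpt κ v T y h1 h2 hT)
  refine ⟨hPh, ?_⟩
  have h3 := norm_integral_le_of_norm_le hint (Eventually.of_forall fun y => hpt κ v T y h1 h2 hT)
  refine h3.trans (le_of_eq ?_)
  rw [integral_const_mul, hg2]
  ring

end Pool.Agent.Q166.AL
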