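import Pool.Agent.Q72.AL.Stm
import Pool.Agent.W565.WM.Res
import Pool.Agent.W280.WM.EF

/-! AL-RECT: the residue theorem for `Ph` (project AL of helper72, MP_f0209c_nt). -/

set_option autoImplicit false

open Complex MeasureTheory Filter Topology Set
open H345 (Zo aa XX)

namespace Pool.Agent.Q166.AL

open Pool.Agent.Q72.AL

/-- the numerator -/
noncomputable def gP (κ v T : ℝ) (s : ℂ) : ℂ := (s - 1) *
  cexp ((κ : ℂ) * (s - 1 / 2 - (T : ℂ) * I) ^ 2 + (v : ℂ) * (s - 1 / 2 - (T : ℂ) * I))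

theorem gP_diff (κ v T : ℝ) : Differentiable ℂ (gP κ v T) := by
  unfold gP
  fun_prop

theorem quotP (κ v T : ℝ) (s : ℂ) (hs : s ≠ 1) : gP κ v T s / riemannZeta₁ s = Ph κ v T s := by
  have h1 : s - 1 ≠ 0 := sub_ne_zero.mpr hs
  unfold gP Ph
  rw [Pool.Agent.W280.WM.z1_eq s hs, mul_div_mul_left _ _ h1, div_eq_mul_inv]

theorem zeta1_zero (hRH : RiemannHypothesis) (s : ℂ) (h1 : -1 / 2 ≤ s.re) (h2 : 1 ≤ s.im) :
    riemannZeta₁ s = 0 ↔ s.re = 1 / 2 ∧ s.im ∈ Zo := by
  have hs : s ≠ 1 := by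
    intro hs
    rw [hs] at h2
    simp at h2
    linarith
  rw [Pool.Agent.W280.WM.z1_eq s hs, mul_eq_zero, sub_eq_zero]
  constructor
  · rintro (h | h)
    · exact absurd h hs
    · have h3 : s.re = 1 / 2 := by
        apply hRH s h _ hs
        rintro ⟨n, hn⟩
        have h4 := congrArg Complex.im hn
        simp at h4
        linarith
      refine ⟨h3, ?_⟩
      show riemannZeta (1 / 2 + ((s.im : ℝ) : ℂ) * I) = 0
      have e : (1 / 2 + ((s.im : ℝ) : ℂ) * I : ℂ) = s := by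
        apply Complex.ext
        · simp [h3]
        · simp
      rw [e, h]
  · rintro ⟨h3, h4⟩
    right
    have e : (1 / 2 + ((s.im : ℝ) : ℂ) * I : ℂ) = s := by
      apply Complex.ext
      · simp [h3]
      · simp
    have h5 : riemannZeta (1 / 2 + ((s.im : ℝ) : ℂ) * I) = 0 := h4
    rwa [e] at h5

theorem deriv_zeta1 (ρ : ℂ) (hs : ρ ≠ 1) (h0 : riemannZeta ρ = 0) :
    deriv riemannZeta₁ ρ = (ρ - 1) * deriv riemannZeta ρ := by
  have h2 : HasDerivAt (fun s : ℂ => (s - 1) * riemannZeta s)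
      (1 * riemannZeta ρ + (ρ - 1) * deriv riemannZeta ρ) ρ :=
    ((hasDerivAt_id ρ).sub_const 1).mul (differentiableAt_riemannZeta hs).hasDerivAt
  have h3 : riemannZeta₁ =ᶠ[𝓝 ρ] fun s : ℂ => (s - 1) * riemannZeta s := by
    filter_upwards [isOpen_ne.mem_nhds hs] with s hs'
    exact Pool.Agent.W280.WM.z1_eq s hs'
  rw [h3.deriv_eq, h2.deriv, h0]; ring

theorem rect : J_RECT := by
  intro hRH U1 U2 Z hU1 hU12 hZ hn1 hn2 hsimple κ v T
  have hinj : Function.Injective (fun t : ℝ => (1 / 2 + (t : ℂ) * I : ℂ)) := by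
    intro t t' h
    have := congrArg Complex.im h
    simpa using this
  have key := Pool.Agent.W565.WM.t_res riemannZeta₁ (gP κ v T) (Z.map ⟨_, hinj⟩) (-1 / 2) (3 / 2) U1 U2
    (by norm_num) hU12 differentiable_riemannZeta₁ (gP_diff κ v T) (by
      intro s hs
      rw [Complex.mem_reProdIm] at hs
      rw [zeta1_zero hRH s hs.1.1 (le_trans hU1 hs.2.1), Finset.mem_map]
      constructor
      · rintro ⟨h1, h2⟩
        refine ⟨s.im, (hZ _).2 ⟨h2, hs.2.1, hs.2.2⟩, ?_⟩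
        apply Complex.ext
        · simp [h1]
        · simp
      · rintro ⟨t, ht, rfl⟩
        have h1 := ((hZ t).1 ht).1
        refine ⟨by simp, ?_⟩
        simpa using h1) (by
      intro ρ hρ
      rw [Finset.mem_map] at hρ
      obtain ⟨t, ht, rfl⟩ := hρ
      obtain ⟨h1, h2, h3⟩ := (hZ t).1 ht
      have h4 : U1 < t := lt_of_le_of_ne h2 (fun h => hn1 (h ▸ h1))
      have h5 : t < U2 := lt_of_le_of_ne h3 (fun h => hn2 (h ▸ h1))
      have hne : (1 / 2 + (t : ℂ) * I : ℂ) ≠ 1 := by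
        intro h
        have := congrArg Complex.re h
        simp at this
      constructor
      · rw [Complex.mem_reProdIm]
        refine ⟨?_, ?_⟩
        · simp; constructor <;> norm_num
        · simp; exact ⟨h4, h5⟩
      · show deriv riemannZeta₁ (1 / 2 + (t : ℂ) * I) ≠ 0
        rw [deriv_zeta1 _ hne h1]
        exact mul_ne_zero (sub_ne_zero.mpr hne) (hsimple t ht))
  have hsum : ∑ ρ ∈ Z.map ⟨_, hinj⟩, gP κ v T ρ / deriv riemannZeta₁ ρ = ZZ Z κ v T := by
    rw [Finset.sum_map]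
    unfold ZZ
    apply Finset.sum_congr rfl
    intro t ht
    obtain ⟨h1, h2, h3⟩ := (hZ t).1 ht
    have hne : (1 / 2 + (t : ℂ) * I : ℂ) ≠ 1 := by
      intro h
      have := congrArg Complex.re h
      simp at this
    show gP κ v T (1 / 2 + (t : ℂ) * I) / deriv riemannZeta₁ (1 / 2 + (t : ℂ) * I) = _
    rw [deriv_zeta1 _ hne h1]
    unfold gP aa
    rw [mul_div_mul_left _ _ (sub_ne_zero.mpr hne), div_eq_inv_mul, mul_assoc]
    congr 1
    rw [Complex.ofReal_exp, ← Complex.exp_add]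
    congr 1
    have e : (1 / 2 + (t : ℂ) * I - 1 / 2 - (T : ℂ) * I) = ((t : ℂ) - T) * I := by ring
    rw [e, mul_pow, Complex.I_sq]
    push_cast
    ring
  have hc : ∀ (t : ℝ), t ≠ 0 → (∫ x in (-1 / 2 : ℝ)..(3 / 2), gP κ v T (⟨x, t⟩ : ℂ) / riemannZeta₁ ⟨x, t⟩) =
      ∫ x in (-1 / 2 : ℝ)..(3 / 2), Ph κ v T (⟨x, t⟩ : ℂ) := by
    intro t ht
    apply intervalIntegral.integral_congr
    intro x _
    apply quotP
    intro h1
    have h2 := congrArg Complex.im h1
    exact ht h2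
  have hr : ∀ (σ : ℝ), σ ≠ 1 → (∫ y in U1..U2, gP κ v T (⟨σ, y⟩ : ℂ) / riemannZeta₁ ⟨σ, y⟩) =
      ∫ y in U1..U2, Ph κ v T (⟨σ, y⟩ : ℂ) := by
    intro σ hσ
    apply intervalIntegral.integral_congr
    intro y _
    apply quotP
    intro h1
    have h2 := congrArg Complex.re h1
    exact hσ h2
  rw [hc U1 (by linarith), hc U2 (by linarith), hr (3 / 2) (by norm_num), hr (-1 / 2) (by norm_num), hsum] at key
  exact key

end Pool.Agent.Q166.AL
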